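import Pool.Agent.Helper42.KS.Goals

set_option autoImplicit false

/-! Packet MIN2 of MP_40ec72_an: the minor arcs in `ℓ²`. -/

namespace Pool.Agent.Helper42.KS.PkMIN2

open MeasureTheory
open scoped ENNReal NNReal

lemma ee_add (s t : ℝ) : ee (s + t) = ee s * ee t := by
  unfold ee
  rw [← Complex.exp_add]
  congr 1
  push_cast
  ring

lemma ee_sum {ι : Type*} (s : Finset ι) (f : ι → ℝ) : ee (∑ i ∈ s, f i) = ∏ i ∈ s, ee (f i) := by
  unfold ee
  rw [← Complex.exp_sum]
  congr 1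
  rw [Finset.mul_sum]
  push_cast
  rw [Finset.sum_mul]

lemma continuous_ee : Continuous ee := by
  unfold ee
  fun_prop

lemma fS_eq (k R : ℕ) (α ξ : ℝ) :
    fS k R α ξ = ∑ z ∈ Finset.Ico 0 (R : ℤ), ee (α * (z : ℝ) ^ k + ξ * z) := by
  unfold fS
  refine Finset.sum_nbij' (fun n : ℕ => (n : ℤ)) Int.toNat ?_ ?_ ?_ ?_ ?_
  · intro n hn
    simp only [Finset.mem_range] at hn
    simp only [Finset.mem_Ico]
    omega
  · intro z hz
    simp only [Finset.mem_Ico] at hz
    simp only [Finset.mem_range]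
    omega
  · intro n hn
    simp
  · intro z hz
    simp only [Finset.mem_Ico] at hz
    omega
  · intro n hn
    simp

lemma sum_kerT (d k R : ℕ) (α : ℝ) (ξ : Fin d → ℝ) :
    ∑ y ∈ box d R, kerT k R α y * ee (∑ i, (y i : ℝ) * ξ i) = ∏ ν, fS k R α (ξ ν) := by
  simp_rw [fS_eq]
  rw [Finset.prod_univ_sum]
  unfold box
  refine Finset.sum_congr rfl fun y hy => ?_
  simp only [Fintype.mem_piFinset, Finset.mem_Ico] at hy
  unfold kerT
  rw [if_pos hy, ← ee_add, Finset.mul_sum, ← Finset.sum_add_distrib, ee_sum]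
  refine Finset.prod_congr rfl fun i _ => ?_
  congr 1
  ring

lemma kerT_supp (d k R : ℕ) (α : ℝ) (y : Fin d → ℤ) (hy : y ∉ box d R) : kerT k R α y = 0 := by
  unfold kerT
  rw [if_neg]
  intro h
  exact hy (by simpa [box, Fintype.mem_piFinset, Finset.mem_Ico] using h)

lemma measurableSet_mnr (k R : ℕ) : MeasurableSet (mnr k R) := by
  have h : mnr k R = Set.Ioc ((R : ℝ) ^ (-(k : ℝ) + 1 / 16)) (1 + (R : ℝ) ^ (-(k : ℝ) + 1 / 16)) ∩
      ⋂ q : ℕ, ⋂ (_ : 1 ≤ q), ⋂ (_ : (q : ℝ) ≤ (R : ℝ) ^ (1 / 16 : ℝ)), ⋂ a : ℤ,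
        {α : ℝ | (R : ℝ) ^ (-(k : ℝ) + 1 / 16) < |α - a / q|} := by
    ext α
    simp only [mnr, Set.mem_ofPred_eq, Set.mem_inter_iff, Set.mem_Ioc, Set.mem_iInter]
    tauto
  rw [h]
  refine measurableSet_Ioc.inter ?_
  refine MeasurableSet.iInter fun q => MeasurableSet.iInter fun _ => MeasurableSet.iInter fun _ =>
    MeasurableSet.iInter fun a => ?_
  exact measurableSet_lt measurable_const (by fun_prop)

lemma mnr_subset (k R : ℕ) :
    mnr k R ⊆ Set.Ioc ((R : ℝ) ^ (-(k : ℝ) + 1 / 16)) (1 + (R : ℝ) ^ (-(k : ℝ) + 1 / 16)) :=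
  fun _ h => ⟨h.1, h.2.1⟩

lemma volume_mnr (k R : ℕ) : volume (mnr k R) ≤ 1 := by
  refine (measure_mono (mnr_subset k R)).trans ?_
  rw [Real.volume_Ioc]
  simp

lemma continuous_app (d k R : ℕ) (E : Finset (Fin d → ℤ)) (x : Fin d → ℤ) :
    Continuous fun α : ℝ => app (kerT k R α) E x := by
  unfold app
  refine continuous_finsetSum _ fun z _ => ?_
  unfold kerT
  by_cases h : ∀ i, 0 ≤ (x - z) i ∧ (x - z) i < (R : ℤ)
  · simp only [if_pos h]
    exact continuous_ee.comp (by fun_prop)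
  · simp only [if_neg h]
    exact continuous_const

lemma integrableOn_mnr (k R : ℕ) (f : ℝ → ℝ) (hf : Continuous f) : IntegrableOn f (mnr k R) :=
  (hf.integrableOn_Icc (a := (R : ℝ) ^ (-(k : ℝ) + 1 / 16))
    (b := 1 + (R : ℝ) ^ (-(k : ℝ) + 1 / 16))).mono_set
    ((mnr_subset k R).trans Set.Ioc_subset_Icc_self)

lemma sq_integral_le (k R : ℕ) (f : ℝ → ℝ) (hf : Continuous f) :
    (∫ α in mnr k R, f α) ^ 2 ≤ ∫ α in mnr k R, f α ^ 2 := by
  set I := ∫ α in mnr k R, f α with hI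
  have hm : (volume.restrict (mnr k R)).real Set.univ ≤ 1 := by
    rw [measureReal_restrict_apply_univ]
    unfold Measure.real
    exact ENNReal.toReal_le_of_le_ofReal zero_le_one (by simpa using volume_mnr k R)
  have h0 : 0 ≤ ∫ α in mnr k R, (f α - I) ^ 2 := integral_nonneg fun _ => sq_nonneg _
  have i1 : IntegrableOn (fun α => f α ^ 2) (mnr k R) := integrableOn_mnr k R _ (hf.pow 2)
  have i2 : IntegrableOn (fun α => 2 * I * f α) (mnr k R) :=
    integrableOn_mnr k R _ (continuous_const.mul hf)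
  have i3 : IntegrableOn (fun _ : ℝ => I ^ 2) (mnr k R) :=
    integrableOn_mnr k R _ continuous_const
  have e : ∫ α in mnr k R, (f α - I) ^ 2 =
      (∫ α in mnr k R, f α ^ 2) - 2 * I * I + (volume.restrict (mnr k R)).real Set.univ * I ^ 2 := by
    have : (fun α => (f α - I) ^ 2) = fun α => (f α ^ 2 - 2 * I * f α) + I ^ 2 := by
      funext α; ring
    rw [this]
    have e1 : ∫ α in mnr k R, (f α ^ 2 - 2 * I * f α + I ^ 2) =
        (∫ α in mnr k R, (f α ^ 2 - 2 * I * f α)) + ∫ _α in mnr k R, I ^ 2 :=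
      integral_add (f := fun α => f α ^ 2 - 2 * I * f α) (g := fun _ => I ^ 2) (i1.sub i2) i3
    rw [e1, integral_sub i1 i2, integral_const_mul, integral_const, smul_eq_mul]
  rw [e] at h0
  nlinarith [sq_nonneg I]

theorem thm : G_MIN1 → G_BES → G_PAR → G_MIN2 := by
  intro hMIN1 hBES hPAR k d hk hd
  obtain ⟨C, hC⟩ := hMIN1 k hk
  refine ⟨|C| ^ (2 * d), fun R E X hR => ?_⟩
  set σ : ℝ := 1 / (2 : ℝ) ^ (k + 4) with hσ
  set M : ℝ := |C| * (R : ℝ) ^ (1 - σ) with hM
  have hR0 : (0 : ℝ) ≤ R := Nat.cast_nonneg R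
  have hM0 : 0 ≤ M := mul_nonneg (abs_nonneg _) (Real.rpow_nonneg hR0 _)
  -- the pointwise bound
  have key : ∀ α ∈ mnr k R, ∑ x ∈ X, ‖app (kerT k R α) E x‖ ^ 2 ≤ (M ^ d) ^ 2 * E.card := by
    intro α hα
    have hfS : ∀ ξ : ℝ, ‖fS k R α ξ‖ ≤ M := by
      intro ξ
      refine (hC R α ξ hR hα.2.2).trans ?_
      exact mul_le_mul_of_nonneg_right (le_abs_self C) (Real.rpow_nonneg hR0 _)
    refine (hBES d (box d R) E X (kerT k R α) (kerT_supp d k R α)).trans ?_
    rw [← hPAR d E, ← integral_const_mul]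
    have hint : IntegrableOn (fun ξ : Fin d → ℝ => (M ^ d) ^ 2 *
        ‖∑ z ∈ E, ee (∑ i, (z i : ℝ) * ξ i)‖ ^ 2)
        (Set.pi Set.univ (fun _ : Fin d => Set.Icc (0 : ℝ) 1)) := by
      refine ContinuousOn.integrableOn_compact (isCompact_univ_pi fun _ => isCompact_Icc) ?_
      refine Continuous.continuousOn ?_
      refine continuous_const.mul ((continuous_norm.comp ?_).pow 2)
      exact continuous_finsetSum _ fun z _ => continuous_ee.comp (by fun_prop)
    refine integral_mono_of_nonneg (Filter.Eventually.of_forall fun ξ => ?_) hint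
      (Filter.Eventually.of_forall fun ξ => ?_)
    · positivity
    · simp only
      refine mul_le_mul_of_nonneg_right ?_ (sq_nonneg _)
      refine pow_le_pow_left₀ (norm_nonneg _) ?_ 2
      rw [sum_kerT, norm_prod]
      calc ∏ ν, ‖fS k R α (ξ ν)‖ ≤ ∏ _ν : Fin d, M :=
            Finset.prod_le_prod (fun _ _ => norm_nonneg _) fun ν _ => hfS _
        _ = M ^ d := by simp
  have hcont : ∀ x, Continuous fun α : ℝ => ‖app (kerT k R α) E x‖ := fun x =>
    continuous_norm.comp (continuous_app d k R E x)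
  have hm : (volume.restrict (mnr k R)).real Set.univ ≤ 1 := by
    rw [measureReal_restrict_apply_univ]
    unfold Measure.real
    exact ENNReal.toReal_le_of_le_ofReal zero_le_one (by simpa using volume_mnr k R)
  have hB0 : 0 ≤ (M ^ d) ^ 2 * (E.card : ℝ) := by positivity
  calc ∑ x ∈ X, (∫ α in mnr k R, ‖app (kerT k R α) E x‖) ^ 2
      ≤ ∑ x ∈ X, ∫ α in mnr k R, ‖app (kerT k R α) E x‖ ^ 2 :=
        Finset.sum_le_sum fun x _ => sq_integral_le k R _ (hcont x)
    _ = ∫ α in mnr k R, ∑ x ∈ X, ‖app (kerT k R α) E x‖ ^ 2 := by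
        rw [integral_finsetSum]
        exact fun x _ => integrableOn_mnr k R _ ((hcont x).pow 2)
    _ ≤ ∫ _α in mnr k R, (M ^ d) ^ 2 * (E.card : ℝ) := by
        refine setIntegral_mono_on ?_ ?_ (measurableSet_mnr k R) key
        · exact integrableOn_mnr k R _ (continuous_finsetSum _ fun x _ => (hcont x).pow 2)
        · exact integrableOn_mnr k R _ continuous_const
    _ = (volume.restrict (mnr k R)).real Set.univ * ((M ^ d) ^ 2 * (E.card : ℝ)) := by
        rw [integral_const, smul_eq_mul]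
    _ ≤ (M ^ d) ^ 2 * (E.card : ℝ) := by
        nlinarith [hB0, hm]
    _ = |C| ^ (2 * d) * (R : ℝ) ^ (2 * (d : ℝ) * (1 - σ)) * E.card := by
        congr 1
        rw [← pow_mul, mul_comm d 2, hM, mul_pow]
        congr 1
        rw [← Real.rpow_mul_natCast hR0]
        congr 1
        push_cast
        ring

end Pool.Agent.Helper42.KS.PkMIN2
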